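import Pool.Agent.NBT.StmtsA

/-!
# NBT squad, row PJF (helper17): facts on the projections
-/

set_option autoImplicit false

open Matrix Filter Topology

namespace Pool.Agent.NBT.H17

open Pool.Agent.PFS Pool.Agent.PFJ Pool.Agent.NBT Pool.Agent.PCO

variable {n K : ℕ} {C : Set (V n)}

theorem sml_mono (h : PCone C) {v v' u : V n} {a : ℝ} (ha : 0 < a)
    (hv : v' - a • v ∈ closure C) (hu : Sml C v u) : Sml C v' u := by
  intro x hx τ hτ
  obtain ⟨κ, hκ, h1, h2⟩ := hu x hx τ hτ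
  refine ⟨κ / a, div_pos hκ ha, ?_, ?_⟩
  · have e : (κ / a) • v' + τ • x - u = (κ • v + τ • x - u) + (κ / a) • (v' - a • v) := by
      rw [smul_sub, smul_smul, div_mul_cancel₀ κ ha.ne']; abel
    rw [e]; exact h.cl_add h1 (h.cl_smul hv (div_pos hκ ha).le)
  · have e : (κ / a) • v' + τ • x + u = (κ • v + τ • x + u) + (κ / a) • (v' - a • v) := by
      rw [smul_sub, smul_smul, div_mul_cancel₀ κ ha.ne']; abel
    rw [e]; exact h.cl_add h2 (h.cl_smul hv (div_pos hκ ha).le)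

theorem fS_sub_single (h : PCone C) {w : Fin K → V n} (hw : ∀ i, w i ∈ closure C)
    {I : Finset (Fin K)} {m : Fin K} (hm : m ∈ I) : fS w I - w m ∈ closure C := by
  have h1 := fS_add_sdiff w (Finset.singleton_subset_iff.2 hm)
  rw [fS_single] at h1
  rw [← h1, add_sub_cancel_left]
  exact fS_cl h hw _

theorem fS_scale (h : PCone C) {w : Fin K → V n} (hw : ∀ i, w i ∈ closure C)
    (r : Fin K → ℝ) (hr : ∀ i, 0 < r i) (I : Finset (Fin K)) :
    ∃ a : ℝ, 0 < a ∧ fS (fun i => r i • w i) I - a • fS w I ∈ closure C := by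
  have hpos : 0 < 1 + ∑ i, (r i)⁻¹ := by
    have : 0 ≤ ∑ i, (r i)⁻¹ := Finset.sum_nonneg fun i _ => (inv_pos.2 (hr i)).le
    linarith
  refine ⟨(1 + ∑ i, (r i)⁻¹)⁻¹, inv_pos.2 hpos, ?_⟩
  unfold fS
  rw [Finset.smul_sum, ← Finset.sum_sub_distrib]
  refine h.cl_sum fun i _ => ?_
  rw [← sub_smul]
  refine h.cl_smul (hw i) ?_
  have h1 : (r i)⁻¹ ≤ 1 + ∑ i, (r i)⁻¹ := by
    have : (r i)⁻¹ ≤ ∑ i, (r i)⁻¹ :=
      Finset.single_le_sum (f := fun i => (r i)⁻¹) (fun j _ => (inv_pos.2 (hr j)).le)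
        (Finset.mem_univ i)
    linarith
  have h2 : (1 + ∑ i, (r i)⁻¹)⁻¹ ≤ r i := by
    rw [inv_le_comm₀ hpos (hr i)]
    exact h1
  linarith

theorem sml_scale (h : PCone C) {w : Fin K → V n} (hw : ∀ i, w i ∈ closure C)
    (r : Fin K → ℝ) (hr : ∀ i, 0 < r i) (I : Finset (Fin K)) (u : V n) :
    Sml C (fS (fun i => r i • w i) I) u ↔ Sml C (fS w I) u := by
  constructor
  · intro hu
    obtain ⟨a, ha, h1⟩ := fS_scale h (w := fun i => r i • w i)
      (fun i => h.cl_smul (hw i) (hr i).le) (fun i => (r i)⁻¹) (fun i => inv_pos.2 (hr i)) I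
    have e : (fun i => (r i)⁻¹ • r i • w i) = w := by
      funext i
      rw [smul_smul, inv_mul_cancel₀ (hr i).ne', one_smul]
    rw [e] at h1
    exact sml_mono h ha h1 hu
  · intro hu
    obtain ⟨a, ha, h1⟩ := fS_scale h hw r hr I
    exact sml_mono h ha h1 hu

theorem sml_act {Γ : Subgroup (GL (Fin n) ℝ)} (h : CC C Γ) {g : GL (Fin n) ℝ} (hg : g ∈ Γ)
    {s : ℝ} (hs : 0 < s) (v x : V n) : Sml C (s • act g v) x ↔ Sml C v (act g⁻¹ x) := by
  constructor
  · intro hu x0 hx0 τ hτ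
    obtain ⟨κ, hκ, h1, h2⟩ := hu (act g x0) (h.mem g hg x0 hx0) τ hτ
    refine ⟨κ * s, mul_pos hκ hs, ?_, ?_⟩
    · rw [← h.act_cl_iff hg]
      have e : act g ((κ * s) • v + τ • x0 - act g⁻¹ x) = κ • s • act g v + τ • act g x0 - x := by
        rw [CC.act_sub, CC.act_add, CC.act_smul, CC.act_smul, CC.act_act_inv, smul_smul]
      rw [e]; exact h1
    · rw [← h.act_cl_iff hg]
      have e : act g ((κ * s) • v + τ • x0 + act g⁻¹ x) = κ • s • act g v + τ • act g x0 + x := by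
        rw [CC.act_add, CC.act_add, CC.act_smul, CC.act_smul, CC.act_act_inv, smul_smul]
      rw [e]; exact h2
  · intro hu x0 hx0 τ hτ
    obtain ⟨κ, hκ, h1, h2⟩ := hu (act g⁻¹ x0) (h.mem g⁻¹ (Γ.inv_mem hg) x0 hx0) τ hτ
    refine ⟨κ / s, div_pos hκ hs, ?_, ?_⟩
    · rw [← h.act_cl_iff hg] at h1
      have e : act g (κ • v + τ • act g⁻¹ x0 - act g⁻¹ x) =
          (κ / s) • s • act g v + τ • x0 - x := by
        rw [CC.act_sub, CC.act_add, CC.act_smul, CC.act_smul, CC.act_act_inv, CC.act_act_inv,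
          smul_smul, div_mul_cancel₀ κ hs.ne']
      rw [← e]; exact h1
    · rw [← h.act_cl_iff hg] at h2
      have e : act g (κ • v + τ • act g⁻¹ x0 + act g⁻¹ x) =
          (κ / s) • s • act g v + τ • x0 + x := by
        rw [CC.act_add, CC.act_add, CC.act_smul, CC.act_smul, CC.act_act_inv, CC.act_act_inv,
          smul_smul, div_mul_cancel₀ κ hs.ne']
      rw [← e]; exact h2

theorem fS_sact (g : GL (Fin n) ℝ) (s : ℝ) (w : Fin K → V n) (I : Finset (Fin K)) :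
    fS (fun i => s • act g (w i)) I = s • act g (fS w I) := by
  unfold fS
  rw [CC.act_sum, Finset.smul_sum]

theorem pjf (_hTBF : TbfStmt) (hBIN : BinStmt) : PjfStmt := by
  intro n C Γ Γ₀ K T c h w hw I p hp
  have hC : PCone C := h.cc.toPCone
  have hcl : ∀ i, w i ∈ closure C := (h.pes w hw).1.cl
  obtain ⟨b1, b2, -, -⟩ := hBIN n C Γ Γ₀ K T c h w hw
  refine ⟨?_, ?_, ?_, ?_, ?_, ?_, ?_⟩
  · intro m hm
    rw [hp.ker]
    have hm' : m ∈ Iᶜ := Finset.mem_compl.2 hm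
    intro x hx τ hτ
    have hτx : τ • x ∈ closure C := subset_closure (hC.smul x hx τ hτ)
    refine ⟨1, one_pos, ?_, ?_⟩
    · have e : (1 : ℝ) • fS w Iᶜ + τ • x - w m = (fS w Iᶜ - w m) + τ • x := by
        rw [one_smul]; abel
      rw [e]; exact hC.cl_add (fS_sub_single hC hcl hm') hτx
    · rw [one_smul]
      exact hC.cl_add (hC.cl_add (fS_cl hC hcl _) hτx) (hcl m)
  · intro x hx
    refine ⟨hp.mem x, hp.pos x (subset_closure hx), ?_⟩
    intro z hz
    obtain ⟨M, hM, h1⟩ := hC.absorb hx z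
    refine ⟨M, hM, ?_⟩
    have h2 := hp.pos _ (subset_closure h1)
    rwa [map_sub, map_smul, hp.idB z hz] at h2
  · intro p' hp'
    refine LinearMap.ext fun x => ?_
    have h1 : p (x - p x) = 0 := by rw [map_sub, hp.idB _ (hp.mem x), sub_self]
    have h2 : p' (x - p x) = 0 := (hp'.ker _).2 ((hp.ker _).1 h1)
    rw [map_sub, hp'.idB _ (hp.mem x), sub_eq_zero] at h2
    exact h2
  · intro r hr
    refine ⟨?_, ?_, hp.pos, ?_⟩
    · intro x; rw [b1 r hr I]; exact hp.mem x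
    · intro y hy; rw [b1 r hr I] at hy; exact hp.idB y hy
    · intro x; rw [hp.ker, sml_scale hC hcl r hr]
  · intro g hg s hs
    have hgΓ : g ∈ Γ := h.sub hg
    let A : V n →ₗ[ℝ] V n := Matrix.mulVecLin (g : Matrix (Fin n) (Fin n) ℝ)
    let A' : V n →ₗ[ℝ] V n := Matrix.mulVecLin ((g⁻¹ : GL (Fin n) ℝ) : Matrix (Fin n) (Fin n) ℝ)
    have hap : ∀ x, (A ∘ₗ p ∘ₗ A') x = act g (p (act g⁻¹ x)) := fun x => rfl
    refine ⟨A ∘ₗ p ∘ₗ A', ⟨?_, ?_, ?_, ?_⟩, ?_⟩
    · intro x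
      rw [(b2 g hg s hs).2 I, hap]
      exact mem_img.2 ⟨_, hp.mem _, rfl⟩
    · intro y hy
      rw [(b2 g hg s hs).2 I] at hy
      obtain ⟨y0, hy0, rfl⟩ := mem_img.1 hy
      rw [hap, CC.act_inv_act, hp.idB _ hy0]
    · intro x hx
      rw [hap]
      exact h.cc.act_cl hgΓ (hp.pos _ (h.cc.act_cl (Γ.inv_mem hgΓ) hx))
    · intro x
      rw [hap, fS_sact, sml_act h.cc hgΓ hs, ← hp.ker]
      constructor
      · intro h0
        apply CC.act_injective g
        rw [h0, CC.act_zero]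
      · intro h0
        rw [h0, CC.act_zero]
    · intro x
      rw [hap, CC.act_inv_act]
  · intro w' hw' hout p' hp'
    have hfe : fS w' Iᶜ = fS w Iᶜ := by
      unfold fS
      exact Finset.sum_congr rfl fun i hi => hout i (Finset.mem_compl.1 hi)
    have hk : ∀ x, p' x = 0 ↔ p x = 0 := by
      intro x; rw [hp'.ker, hp.ker, hfe]
    refine ⟨?_, ?_⟩
    · intro x
      have h1 : p' (x - p' x) = 0 := by rw [map_sub, hp'.idB _ (hp'.mem x), sub_self]
      have h2 := (hk _).1 h1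
      rw [map_sub, sub_eq_zero] at h2
      exact h2.symm
    · intro y hy
      have h1 : p (y - p y) = 0 := by rw [map_sub, hp.idB _ (hp.mem y), sub_self]
      have h2 := (hk _).2 h1
      rw [map_sub, hp'.idB y hy, sub_eq_zero] at h2
      exact h2.symm
  · intro J q hJ hq x
    have h1 : p (x - p x) = 0 := by rw [map_sub, hp.idB _ (hp.mem x), sub_self]
    have h2 := (hp.ker _).1 h1
    have hsub : Iᶜ ⊆ Jᶜ := Finset.compl_subset_compl.2 hJ
    have h3 : fS w Jᶜ - (1 : ℝ) • fS w Iᶜ ∈ closure C := by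
      rw [one_smul, ← fS_add_sdiff w hsub, add_sub_cancel_left]
      exact fS_cl hC hcl _
    have h4 : q (x - p x) = 0 := (hq.ker _).2 (sml_mono hC one_pos h3 h2)
    rw [map_sub, sub_eq_zero] at h4
    exact h4.symm

end Pool.Agent.NBT.H17
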